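import Mathlib

/-!
Circuits of finite multigraphs (loops and parallel edges allowed), the cone, the lattice and the
integer cone they generate, and good ranges.
-/

set_option autoImplicit false

namespace Pool.Agent.P.MP_20b97f_co

open Finset

/-- `C` is the edge set of a cycle of the multigraph whose edge `e` has the ends `ends e`:
distinct edges `c 0, …, c n` and distinct vertices `w 0, …, w n` such that `c i` joins `w i` and
`w (i + 1)`, indices modulo `n + 1`. For `n = 0` this is a loop, for `n = 1` a digon. -/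
def IsCircuit {V E : Type} [DecidableEq E] (ends : E → Sym2 V) (C : Finset E) : Prop :=
  ∃ (n : ℕ) (c : Fin (n + 1) → E) (w : Fin (n + 1) → V), c.Injective ∧ w.Injective ∧
    (∀ i, ends (c i) = s(w i, w (i + 1))) ∧ C = univ.image c

/-- `p` is a nonnegative real combination of incidence vectors of circuits. -/
def InCone {V E : Type} [Fintype E] [DecidableEq E] (ends : E → Sym2 V) (p : E → ℤ) : Prop :=
  ∃ a : Finset E → ℝ, (∀ C, 0 ≤ a C) ∧ (∀ C, a C ≠ 0 → IsCircuit ends C) ∧
    ∀ e, (p e : ℝ) = ∑ C with e ∈ C, a C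

/-- `p` is an integer combination of incidence vectors of circuits. -/
def InLat {V E : Type} [Fintype E] [DecidableEq E] (ends : E → Sym2 V) (p : E → ℤ) : Prop :=
  ∃ a : Finset E → ℤ, (∀ C, a C ≠ 0 → IsCircuit ends C) ∧ ∀ e, p e = ∑ C with e ∈ C, a C

/-- `p` is a nonnegative integer combination of incidence vectors of circuits. -/
def InIntCone {V E : Type} [Fintype E] [DecidableEq E] (ends : E → Sym2 V) (p : E → ℤ) : Prop :=
  ∃ a : Finset E → ℕ, (∀ C, a C ≠ 0 → IsCircuit ends C) ∧ ∀ e, p e = ∑ C with e ∈ C, (a C : ℤ)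

/-- `R` is a good range for graphs. -/
def GoodRange (R : Set ℤ) : Prop :=
  ∀ (V E : Type) [Fintype V] [Fintype E] [DecidableEq E] (ends : E → Sym2 V) (p : E → ℤ),
    (∀ e, p e ∈ R) → (InIntCone ends p ↔ InCone ends p ∧ InLat ends p)

end Pool.Agent.P.MP_20b97f_co
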