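import Pool.Agent.Lib.Flows.Basic
import Pool.Agent.P.MP_20b97f_co.Defs

/-!
Even subgraphs are disjoint unions of circuits, and circuits are even subgraphs.
-/

set_option autoImplicit false
set_option linter.unusedSectionVars false

namespace Pool.Agent.P.MP_20b97f_co

open Finset Pool.Agent.Flows Pool.Agent.Flows.MG

variable {V E : Type} [Fintype V] [DecidableEq V] [Fintype E] [DecidableEq E]

/-- The half-edge description of a multigraph. -/
noncomputable def toMG (ends : E → Sym2 V) : MG V E :=
  ⟨fun e b => if b then (ends e).out.2 else (ends e).out.1⟩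

lemma ends_eq (ends : E → Sym2 V) (e : E) (b : Bool) :
    ends e = s((toMG ends).en e (!b), (toMG ends).en e b) := by
  have h : ends e = s((ends e).out.1, (ends e).out.2) := (Quot.out_eq (ends e)).symm
  cases b
  · simp only [toMG, Bool.not_false, if_true, Bool.false_eq_true, if_false]
    rw [Sym2.eq_swap]; exact h
  · simpa [toMG] using h

lemma flow_of_circuit {ends : E → Sym2 V} {C : Finset E} (h : IsCircuit ends C) :
    (toMG ends).IsFlow (fun e => if e ∈ C then (1 : ZMod 2) else 0) := by
  obtain ⟨n, c, w, hc, -, he, rfl⟩ := h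
  intro X
  let u : V → ZMod 2 := fun v => if v ∈ X then 1 else 0
  have h1 : ∀ i, (if c i ∈ (toMG ends).cut X then (1 : ZMod 2) else 0) = u (w i) + u (w (i + 1)) := by
    intro i
    have := (ends_eq ends (c i) true).symm.trans (he i)
    simp only [mem_cut, u]
    rcases Sym2.eq_iff.1 this with ⟨h1, h2⟩ | ⟨h1, h2⟩ <;>
      simp only [Bool.not_true] at h1 <;> rw [h1, h2] <;>
      by_cases a : w i ∈ X <;> by_cases b : w (i + 1) ∈ X <;> simp [a, b, z2]
  rw [← sum_filter, filter_mem_eq_inter, inter_comm, ← filter_mem_eq_inter, sum_filter,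
    sum_image (fun a _ b _ h => hc h)]
  simp only [h1, sum_add_distrib]
  rw [← Equiv.sum_comp (Equiv.addRight (1 : Fin (n + 1))) (fun i => u (w i))]
  exact z2 _

lemma exists_circuit {ends : E → Sym2 V} {x : E → ZMod 2} (hx : (toMG ends).IsFlow x) {e0 : E}
    (h0 : x e0 = 1) : ∃ C, IsCircuit ends C ∧ ∀ e ∈ C, x e = 1 := by
  classical
  set G := toMG ends with hG
  have hτ : ∀ a : E × Bool, ∃ a' : E × Bool, x a.1 = 1 →
      a' ≠ a ∧ x a'.1 = 1 ∧ G.en a'.1 a'.2 = G.en a.1 a.2 := by
    intro a
    by_cases ha : x a.1 = 1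
    swap
    · exact ⟨a, fun h => (ha h).elim⟩
    by_contra hcon
    push Not at hcon
    have := (isFlow_iff z2 G x).1 hx (G.en a.1 a.2)
    rw [bd, sum_eq_single a, ha] at this
    · simp at this
    · intro b hb hba
      have hv : ∀ t : ZMod 2, t ≠ 1 → t = 0 := by decide
      exact hv _ fun h => (hcon b).2 hba h (mem_filter.1 hb).2
    · simp
  choose τ hτ using hτ
  let a : ℕ → E × Bool := fun k => (fun b => ((τ b).1, !(τ b).2))^[k] (e0, false)
  have ha : ∀ k, a (k + 1) = ((τ (a k)).1, !(τ (a k)).2) := fun k =>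
    Function.iterate_succ_apply' _ _ _
  have hx1 : ∀ k, x (a k).1 = 1 := by
    intro k
    induction k with
    | zero => exact h0
    | succ k ih => rw [ha]; exact (hτ _ ih).2.1
  let v : ℕ → V := fun k => G.en (a k).1 (a k).2
  have hv : ∀ k, G.en (a (k + 1)).1 (!(a (k + 1)).2) = v k := by
    intro k
    rw [ha]
    simpa using (hτ _ (hx1 k)).2.2
  have hend : ∀ k, ends (a (k + 1)).1 = s(v k, v (k + 1)) := by
    intro k
    rw [ends_eq ends _ (a (k + 1)).2, ← hG, hv]
  have hex : ∃ j, ∃ i < j, v i = v j := by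
    obtain ⟨i, j, hij, h⟩ := Finite.exists_ne_map_eq_of_infinite v
    rcases lt_or_gt_of_ne hij with h1 | h1
    · exact ⟨j, i, h1, h⟩
    · exact ⟨i, j, h1, h.symm⟩
  obtain ⟨i, hij, hvij⟩ := Nat.find_spec hex
  set j := Nat.find hex with hj
  have hinj : ∀ k l, k < j → l < j → v k = v l → k = l := by
    intro k l hk hl h
    rcases lt_trichotomy k l with h1 | h1 | h1
    · exact absurd ⟨k, h1, h⟩ (Nat.find_min hex hl)
    · exact h1
    · exact absurd ⟨l, h1, h.symm⟩ (Nat.find_min hex hk)
  obtain ⟨n, hn⟩ : ∃ n, j = i + n + 1 := ⟨j - i - 1, by omega⟩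
  have hlt : ∀ k l, k < l → l < j → (a (k + 1)).1 ≠ (a (l + 1)).1 := by
    intro k l hkl hl h
    have h1 := hend k
    rw [h, hend l] at h1
    rcases Sym2.eq_iff.1 h1 with ⟨h2, -⟩ | ⟨h2, -⟩
    · have := hinj _ _ hl (by omega) h2; omega
    · have h3 := hinj _ _ hl (by omega) h2
      subst h3
      have h4 := hτ _ (hx1 (k + 1))
      rw [ha (k + 1)] at h
      have h5 : (τ (a (k + 1))).2 = !(a (k + 1)).2 := by
        by_contra h6
        apply h4.1
        refine Prod.ext h.symm ?_
        revert h6
        cases (τ (a (k + 1))).2 <;> cases (a (k + 1)).2 <;> simp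
      have h6 := h4.2.2
      simp only at h
      rw [h5, ← h, hv] at h6
      have := hinj k (k + 1) (by omega) hl h6
      omega
  refine ⟨univ.image fun t : Fin (n + 1) => (a (i + t + 1)).1,
    ⟨n, _, fun t => v (i + t), ?_, ?_, ?_, rfl⟩, ?_⟩
  · intro s t h
    have hs := s.2
    have ht := t.2
    rcases lt_trichotomy (s : ℕ) t with h1 | h1 | h1
    · exact absurd h (hlt _ _ (by omega) (by omega))
    · exact Fin.ext h1
    · exact absurd h.symm (hlt _ _ (by omega) (by omega))
  · intro s t h
    have hs := s.2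
    have ht := t.2
    have := hinj _ _ (by omega) (by omega) h
    exact Fin.ext (by omega)
  · intro t
    rw [hend]
    congr 1
    by_cases ht : t = Fin.last n
    · subst ht
      simp only [Fin.val_last, Fin.last_add_one, Fin.val_zero, add_zero]
      rw [← hn, hvij]
    · simp only [Fin.val_add_one, if_neg ht, add_assoc]
  · intro e he
    obtain ⟨t, -, rfl⟩ := mem_image.1 he
    exact hx1 _

lemma intCone_add {ends : E → Sym2 V} {p q : E → ℤ} (hp : InIntCone ends p)
    (hq : InIntCone ends q) : InIntCone ends (p + q) := by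
  obtain ⟨a, ha, hp⟩ := hp
  obtain ⟨b, hb, hq⟩ := hq
  refine ⟨a + b, fun C h => ?_, fun e => by simp [hp, hq, sum_add_distrib]⟩
  by_cases h1 : a C = 0
  · exact hb C (by simpa [h1] using h)
  · exact ha C h1

lemma intCone_zero (ends : E → Sym2 V) : InIntCone ends 0 := ⟨0, by simp, by simp⟩

lemma intCone_circuit {ends : E → Sym2 V} {C : Finset E} (h : IsCircuit ends C) :
    InIntCone ends (fun e => if e ∈ C then 1 else 0) := by
  refine ⟨Pi.single C 1, fun D hD => ?_, fun e => ?_⟩
  · by_cases h1 : D = C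
    · rwa [h1]
    · simp [h1] at hD
  · simp [Pi.single_apply, sum_ite_eq']

lemma intCone_flow {ends : E → Sym2 V} (x : E → ZMod 2) (hx : (toMG ends).IsFlow x) :
    InIntCone ends (ind x) := by
  induction hn : (univ.filter fun e => x e = 1).card using Nat.strong_induction_on
    generalizing x with
  | _ n ih =>
    by_cases h : ∃ e, x e = 1
    · obtain ⟨e0, h0⟩ := h
      obtain ⟨C, hC, hCx⟩ := exists_circuit hx h0
      have := intCone_add (ih _ ?_ _ (hx.add (flow_of_circuit hC)) rfl) (intCone_circuit hC)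
      · convert this using 1
        ext e
        by_cases he : e ∈ C
        · simp [ind, he, hCx e he, z2]
        · simp [ind, he]
      · rw [← hn]
        apply card_lt_card
        obtain ⟨n, c, w, -, -, -, hC⟩ := hC
        have h1 : c 0 ∈ C := by simp [hC]
        refine ⟨fun e he => ?_, fun h => ?_⟩
        · by_cases he' : e ∈ C
          · simp [hCx e he']
          · simpa [he'] using he
        · have := h (mem_filter.2 ⟨mem_univ _, hCx _ h1⟩)
          simp [h1, hCx _ h1, z2] at this
    · convert intCone_zero ends using 1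
      ext e
      push Not at h
      simp [ind, h e]

lemma intCone_of_cov {ends : E → Sym2 V} {p : E → ℤ} (hp : p ∈ (toMG ends).Cov) :
    InIntCone ends p := by
  induction hp using AddSubmonoid.closure_induction with
  | mem y hy => obtain ⟨x, hx, rfl⟩ := hy; exact intCone_flow x hx
  | zero => exact intCone_zero ends
  | add a b _ _ ha hb => exact intCone_add ha hb

lemma cone_lat_of_intCone {ends : E → Sym2 V} {p : E → ℤ} (hp : InIntCone ends p) :
    InCone ends p ∧ InLat ends p := by
  obtain ⟨a, ha, hp⟩ := hp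
  exact ⟨⟨fun C => a C, fun C => Nat.cast_nonneg _, fun C h => ha C (by simpa using h),
    fun e => by simp [hp]⟩, ⟨fun C => a C, fun C h => ha C (by simpa using h), hp⟩⟩

lemma lat_flow {ends : E → Sym2 V} {p : E → ℤ} (hp : InLat ends p) :
    (toMG ends).IsFlow fun e => (p e : ZMod 2) := by
  obtain ⟨a, ha, hp⟩ := hp
  have := IsFlow.sum (G := toMG ends) univ
    (fun C => (a C : ZMod 2) • fun e => if e ∈ C then (1 : ZMod 2) else 0) (fun C _ => by
      by_cases h : a C = 0
      · intro X; simp [h]
      · exact (flow_of_circuit (ha C h)).smul _)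
  convert this using 1
  ext e
  simp [hp, sum_filter, Finset.sum_apply]

lemma lat_one {ends : E → Sym2 V} {p : E → ℤ} (hp : InLat ends p) {X : Finset V} {e : E}
    (h : (toMG ends).cut X = {e}) : p e = 0 := by
  obtain ⟨a, ha, hp⟩ := hp
  rw [hp]
  refine sum_eq_zero fun C hC => ?_
  by_contra h1
  have := flow_of_circuit (ha C h1) X
  simp [h, (mem_filter.1 hC).2] at this

lemma lat_two {ends : E → Sym2 V} {p : E → ℤ} (hp : InLat ends p) {X : Finset V} {e f : E}
    (hef : e ≠ f) (h : (toMG ends).cut X = {e, f}) : p e = p f := by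
  obtain ⟨a, ha, hp⟩ := hp
  rw [hp, hp, sum_filter, sum_filter]
  refine sum_congr rfl fun C _ => ?_
  by_cases h1 : a C = 0
  · simp [h1]
  have := flow_of_circuit (ha C h1) X
  rw [h, sum_pair hef] at this
  by_cases a : e ∈ C <;> by_cases b : f ∈ C <;> simp_all

end Pool.Agent.P.MP_20b97f_co
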