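import Pool.Agent.Lib.ATJ.Main
import Pool.Agent.P.MP_20b97f_co.Veblen

/-!
Circuit covers under a cut condition with a margin, and the weighted Petersen graph.
-/

set_option autoImplicit false
set_option linter.unusedSectionVars false

namespace Pool.Agent.P.MP_20b97f_co

open Finset Pool.Agent.Flows Pool.Agent.Flows.MG

variable {V E : Type} [Fintype V] [DecidableEq V] [Fintype E] [DecidableEq E]

lemma cone_nonneg {ends : E → Sym2 V} {p : E → ℤ} (hp : InCone ends p) (e : E) : 0 ≤ p e := by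
  obtain ⟨a, h0, -, hp⟩ := hp
  have : (0 : ℝ) ≤ p e := by rw [hp]; exact sum_nonneg fun C _ => h0 C
  exact_mod_cast this

lemma cone_cut {ends : E → Sym2 V} {p : E → ℤ} (hp : InCone ends p) (X : Finset V) (e : E)
    (he : e ∈ (toMG ends).cut X) : 2 * p e ≤ ∑ f ∈ (toMG ends).cut X, p f := by
  obtain ⟨a, h0, ha, hp⟩ := hp
  have : (2 * p e : ℝ) ≤ ∑ f ∈ (toMG ends).cut X, (p f : ℝ) := by
    simp only [hp, sum_filter, mul_sum]
    rw [sum_comm]
    refine sum_le_sum fun C _ => ?_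
    by_cases h1 : a C = 0
    · simp [h1]
    by_cases h2 : e ∈ C
    swap
    · rw [if_neg h2, mul_zero]
      exact sum_nonneg fun f _ => by split_ifs; exacts [h0 C, le_rfl]
    have h3 := flow_of_circuit (ha C h1) X
    obtain ⟨f, hf, hfC⟩ : ∃ f ∈ ((toMG ends).cut X).erase e, f ∈ C := by
      by_contra h
      push Not at h
      rw [← add_sum_erase _ _ he, sum_eq_zero fun f hf => if_neg (h f hf)] at h3
      simp [h2] at h3
    refine le_trans (le_of_eq ?_) (sum_le_sum_of_subset_of_nonneg (s := {e, f}) ?_ ?_)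
    · rw [sum_pair (mem_erase.1 hf).1.symm]; simp [h2, hfC]; ring
    · exact insert_subset he (singleton_subset_iff.2 (mem_of_mem_erase hf))
    · exact fun f _ _ => by split_ifs; exacts [h0 C, le_rfl]
  exact_mod_cast this

theorem cover_of_cut (A : ℕ) : ∃ c0 : ℕ, ∀ c : ℕ, c0 ≤ c →
    ∀ (V E : Type) [Fintype V] [DecidableEq V] [Fintype E] [DecidableEq E] (ends : E → Sym2 V)
      (p : E → ℤ), InLat ends p → (∀ e, c ≤ p e ∧ p e ≤ A * c) →
      (∀ X, ∀ e ∈ (toMG ends).cut X, 2 * (p e - c) ≤ ∑ f ∈ (toMG ends).cut X, (p f - c)) →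
      InIntCone ends p := by
  obtain ⟨c0, h⟩ := ATJ.cov_of_margin A
  refine ⟨c0 + 1, fun c hc V E _ _ _ _ ends p hl hp hcut => intCone_of_cov ?_⟩
  refine h c (by omega) V E _ p (fun X hX => ?_) (fun X e f hef hX => lat_two hl hef hX)
    (lat_flow hl) hp hcut
  obtain ⟨e, he⟩ := card_eq_one.1 hX
  have := lat_one hl he
  have := (hp e).1
  omega

theorem good_of_lt_two (ρ : ℝ) (hρ : ρ < 2) :
    ∃ L0 : ℕ, ∀ L : ℕ, L0 ≤ L → GoodRange {n : ℤ | (L : ℤ) ≤ n ∧ (n : ℝ) ≤ ρ * L} := by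
  obtain ⟨m, hm⟩ := exists_nat_gt (1 / (2 - ρ))
  have hm0 : 0 < m := by
    have : (0 : ℝ) < m := lt_trans (by apply one_div_pos.2; linarith) hm
    exact_mod_cast this
  rw [div_lt_iff₀ (by linarith)] at hm
  obtain ⟨c0, h⟩ := cover_of_cut (4 * m)
  refine ⟨m * (c0 + 1), fun L hL V E _ _ _ ends p hp => ?_⟩
  classical
  refine ⟨cone_lat_of_intCone, fun hc => ?_⟩
  have h1 : c0 + 1 ≤ L / m := (Nat.le_div_iff_mul_le hm0).2 (by rwa [mul_comm])
  have h2 : m * (L / m) ≤ L := Nat.mul_div_le L m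
  have h3 : L < m * (L / m + 1) := Nat.lt_mul_div_succ L hm0
  generalize L / m = c at h1 h2 h3
  have h4 : ∀ e, p e + c ≤ 2 * L := by
    intro e
    have a1 := (hp e).2
    have a2 : (m : ℝ) * c ≤ L := by exact_mod_cast h2
    have a3 : (0 : ℝ) ≤ c := Nat.cast_nonneg _
    have a4 : (0 : ℝ) ≤ m := Nat.cast_nonneg _
    have a5 : (c : ℝ) ≤ (2 - ρ) * L := by nlinarith
    have : (p e : ℝ) + c ≤ 2 * L := by linarith
    exact_mod_cast this
  have h5 : ∀ e, (L : ℤ) ≤ p e := fun e => (hp e).1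
  have h6 : c ≤ L := by nlinarith
  have h7 : 2 * L ≤ 4 * m * c := by nlinarith
  refine h c (by omega) V E ends p hc.2 (fun e => ⟨?_, ?_⟩) fun X e he => ?_
  · have := h5 e; omega
  · have := h4 e
    have : ((2 * L : ℕ) : ℤ) ≤ (4 * m * c : ℕ) := by exact_mod_cast h7
    push_cast at this ⊢
    omega
  · rw [← add_sum_erase _ _ he]
    rcases Nat.lt_or_ge (((toMG ends).cut X).erase e).card 2 with h8 | h8
    · rcases (((toMG ends).cut X).erase e).eq_empty_or_nonempty with h9 | ⟨f, hf⟩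
      · have := lat_one hc.2 (X := X) (e := e) (by rw [← insert_erase he, h9]; rfl)
        have := h5 e
        omega
      · have h9 : ((toMG ends).cut X).erase e = {f} :=
          eq_singleton_iff_unique_mem.2 ⟨hf, fun g hg => card_le_one.1 (by omega) g hg f hf⟩
        have := lat_two hc.2 (X := X) (mem_erase.1 hf).1.symm (by rw [← insert_erase he, h9])
        rw [h9, sum_singleton]
        omega
    · have a1 := card_nsmul_le_sum (((toMG ends).cut X).erase e) (fun f => p f - c) (L - c)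
        fun f _ => by have := h5 f; omega
      rw [nsmul_eq_mul] at a1
      have a2 : (2 : ℤ) ≤ (((toMG ends).cut X).erase e).card := by exact_mod_cast h8
      have a3 : (0 : ℤ) ≤ L - c := by omega
      have := h4 e
      nlinarith

/-- First ends of the edges of the Petersen graph. -/
def petA : Fin 15 → Fin 10 := ![0, 1, 2, 3, 4, 5, 6, 7, 8, 9, 0, 1, 2, 3, 4]

/-- Second ends of the edges of the Petersen graph. -/
def petB : Fin 15 → Fin 10 := ![1, 2, 3, 4, 0, 7, 8, 9, 5, 6, 5, 6, 7, 8, 9]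

/-- The Petersen graph. -/
def pet (e : Fin 15) : Sym2 (Fin 10) := s(petA e, petB e)

/-- Weight one on the two pentagons, two on the spokes. -/
def petW (e : Fin 15) : ℤ := if e.val < 10 then 1 else 2

lemma pet_c8 (c : Fin 8 → Fin 15) (w : Fin 8 → Fin 10) (h : c.Injective ∧ w.Injective ∧
    ∀ i, pet (c i) = s(w i, w (i + 1))) : IsCircuit pet (univ.image c) :=
  ⟨7, c, w, h.1, h.2.1, h.2.2, rfl⟩

lemma lat_add {ends : E → Sym2 V} {p q : E → ℤ} (hp : InLat ends p) (hq : InLat ends q) (k : ℤ) :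
    InLat ends (fun e => p e + k * q e) := by
  obtain ⟨a, ha, hp⟩ := hp
  obtain ⟨b, hb, hq⟩ := hq
  refine ⟨fun C => a C + k * b C, fun C h => ?_, fun e => by
    simp [hp, hq, sum_add_distrib, mul_sum]⟩
  by_cases h1 : a C = 0
  · exact hb C fun h2 => h (by simp [h1, h2])
  · exact ha C h1

lemma pet_lat (k : ℤ) : InLat pet fun e => k * petW e := by
  have c0 : IsCircuit pet (univ.image ![0, 1, 2, 13, 8, 10]) :=
    ⟨5, _, ![0, 1, 2, 3, 8, 5], by decide, by decide, by decide, rfl⟩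
  have c1 : IsCircuit pet (univ.image ![0, 1, 12, 7, 14, 3, 13, 8, 10]) :=
    ⟨8, _, ![0, 1, 2, 7, 9, 4, 3, 8, 5], by decide, by decide, by decide, rfl⟩
  have c2 : IsCircuit pet (univ.image ![0, 11, 6, 13, 2, 12, 5, 10]) :=
    ⟨7, _, ![0, 1, 6, 8, 3, 2, 7, 5], by decide, by decide, by decide, rfl⟩
  have c3 : IsCircuit pet (univ.image ![4, 14, 9, 11, 1, 2, 13, 8, 10]) :=
    ⟨8, _, ![0, 4, 9, 6, 1, 2, 3, 8, 5], by decide, by decide, by decide, rfl⟩
  have l := fun C (h : IsCircuit pet C) => (cone_lat_of_intCone (intCone_circuit h)).2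
  have h1 := lat_add (lat_add (lat_add (l _ c1) (l _ c2) 1) (l _ c3) 1) (l _ c0) (-1)
  have h2 := lat_add (cone_lat_of_intCone (intCone_zero pet)).2 h1 k
  convert h2 using 2 with e
  rw [Pi.zero_apply, zero_add]
  congr 1
  revert e; decide

lemma pet_cone (k : ℕ) : InCone pet fun e => k * petW e := by
  have c1 := pet_c8 ![0, 11, 6, 13, 2, 12, 5, 10] ![0, 1, 6, 8, 3, 2, 7, 5] (by decide)
  have c2 := pet_c8 ![0, 11, 9, 14, 3, 13, 8, 10] ![0, 1, 6, 9, 4, 3, 8, 5] (by decide)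
  have c3 := pet_c8 ![4, 14, 7, 12, 2, 13, 8, 10] ![0, 4, 9, 7, 2, 3, 8, 5] (by decide)
  have c4 := pet_c8 ![4, 14, 9, 11, 1, 12, 5, 10] ![0, 4, 9, 6, 1, 2, 7, 5] (by decide)
  have c5 := pet_c8 ![1, 12, 7, 14, 3, 13, 6, 11] ![1, 2, 7, 9, 4, 3, 8, 6] (by decide)
  obtain ⟨a, ha, hp⟩ := intCone_add (intCone_add (intCone_add (intCone_add (intCone_circuit c1)
    (intCone_circuit c2)) (intCone_circuit c3)) (intCone_circuit c4)) (intCone_circuit c5)
  refine ⟨fun C => k / 2 * a C, fun C => by positivity, fun C h => ha C fun h1 => h (by simp [h1]),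
    fun e => ?_⟩
  have h1 : 2 * petW e = ∑ C with e ∈ C, (a C : ℤ) := by
    rw [← hp]
    simp only [Pi.add_apply]
    revert e; decide
  have h2 : (2 * petW e : ℝ) = ∑ C with e ∈ C, (a C : ℝ) := by exact_mod_cast h1
  rw [← mul_sum, ← h2]
  push_cast
  ring

lemma pet_key : ∀ a0 a1 a2 a3 a4 a5 a6 a7 a8 a9 a10 a11 a12 a13 a14 : Bool,
    a10 = xor a0 a4 → a11 = xor a0 a1 → a12 = xor a1 a2 → a13 = xor a2 a3 → a14 = xor a3 a4 →
    a10 = xor a5 a8 → a11 = xor a6 a9 → a12 = xor a5 a7 → a13 = xor a6 a8 → a14 = xor a7 a9 →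
    a10.toNat + a11.toNat + a12.toNat + a13.toNat + a14.toNat <
      a0.toNat + a1.toNat + a2.toNat + a3.toNat + a4.toNat + a5.toNat + a6.toNat + a7.toNat +
        a8.toNat + a9.toNat ∨
    (a10.toNat + a11.toNat + a12.toNat + a13.toNat + a14.toNat =
      a0.toNat + a1.toNat + a2.toNat + a3.toNat + a4.toNat + a5.toNat + a6.toNat + a7.toNat +
        a8.toNat + a9.toNat ∧
      (a10.toNat + a11.toNat + a12.toNat + a13.toNat + a14.toNat) % 4 = 0) := by
  intro a0 a1 a2 a3 a4 a5 a6 a7 a8 a9 a10 a11 a12 a13 a14 h1 h2 h3 h4 h5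
  subst h1 h2 h3 h4 h5
  cases a0 <;> cases a1 <;> cases a2 <;> cases a3 <;> cases a4 <;> cases a5 <;> cases a6 <;>
    revert a7 a8 a9 <;> decide

lemma pet_circ {C : Finset (Fin 15)} (h : IsCircuit pet C) :
    ∑ e ∈ C, (if e.val < 10 then (0 : ℤ) else 1) < ∑ e ∈ C, (if e.val < 10 then 1 else 0) ∨
    (∑ e ∈ C, (if e.val < 10 then (0 : ℤ) else 1) = ∑ e ∈ C, (if e.val < 10 then 1 else 0) ∧
      4 ∣ ∑ e ∈ C, (if e.val < 10 then (0 : ℤ) else 1)) := by
  have h1 : ∀ v : Fin 10, ∀ x y z : Fin 15,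
      (univ.filter fun e => ¬ (petA e = v ↔ petB e = v)) = {x, y, z} → x ≠ y → x ≠ z → y ≠ z →
      decide (x ∈ C) = xor (decide (y ∈ C)) (decide (z ∈ C)) := by
    intro v x y z hv a b c
    have h2 := flow_of_circuit h {v}
    have h3 : (toMG pet).cut {v} = {x, y, z} := by
      rw [← hv]
      ext e
      have := ends_eq pet e true
      simp only [mem_cut, mem_singleton, mem_filter, mem_univ, true_and]
      rcases Sym2.eq_iff.1 this with ⟨h4, h5⟩ | ⟨h4, h5⟩
      · rw [h4, h5]; rfl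
      · rw [h4, h5]; exact not_congr Iff.comm
    rw [h3, sum_insert (by simp [a, b]), sum_pair c] at h2
    by_cases i : x ∈ C <;> by_cases j : y ∈ C <;> by_cases k : z ∈ C <;>
      simp [i, j, k] at h2 ⊢
    exact absurd h2 (by decide)
  have h2 := pet_key _ _ _ _ _ _ _ _ _ _ _ _ _ _ _
    (h1 0 10 0 4 (by decide) (by decide) (by decide) (by decide))
    (h1 1 11 0 1 (by decide) (by decide) (by decide) (by decide))
    (h1 2 12 1 2 (by decide) (by decide) (by decide) (by decide))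
    (h1 3 13 2 3 (by decide) (by decide) (by decide) (by decide))
    (h1 4 14 3 4 (by decide) (by decide) (by decide) (by decide))
    (h1 5 10 5 8 (by decide) (by decide) (by decide) (by decide))
    (h1 6 11 6 9 (by decide) (by decide) (by decide) (by decide))
    (h1 7 12 5 7 (by decide) (by decide) (by decide) (by decide))
    (h1 8 13 6 8 (by decide) (by decide) (by decide) (by decide))
    (h1 9 14 7 9 (by decide) (by decide) (by decide) (by decide))
  have h3 : ∀ g : Fin 15 → ℤ, ∑ e ∈ C, g e = ∑ e, ((decide (e ∈ C)).toNat : ℤ) * g e := by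
    intro g
    rw [← univ_inter C, ← sum_ite_mem, univ_inter]
    exact sum_congr rfl fun e _ => by by_cases i : e ∈ C <;> simp [i]
  have h4 : ∀ g : Fin 15 → ℤ, ∑ e, g e = g 0 + (g 1 + (g 2 + (g 3 + (g 4 + (g 5 + (g 6 + (g 7 +
      (g 8 + (g 9 + (g 10 + (g 11 + (g 12 + (g 13 + g 14))))))))))))) := by
    intro g
    simp only [Fin.sum_univ_succ, Fin.sum_univ_zero, add_zero]
    rfl
  rw [h3, h3, h4, h4]
  norm_num
  omega

lemma pet_not (k : ℕ) (hk : Odd k) : ¬ InIntCone pet fun e => k * petW e := by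
  rintro ⟨a, ha, hp⟩
  have h1 : ∀ g : Fin 15 → ℤ, ∑ e, k * petW e * g e = ∑ C, a C * ∑ e ∈ C, g e := by
    intro g
    simp only [hp, sum_filter, sum_mul, mul_sum]
    rw [sum_comm]
    refine sum_congr rfl fun C _ => ?_
    simp [sum_ite_mem]
  have h2 := h1 fun e => if e.val < 10 then 0 else 1
  have h3 := h1 fun e => if e.val < 10 then 1 else 0
  simp only [mul_assoc, ← mul_sum] at h2 h3
  rw [show ∑ e, petW e * (if e.val < 10 then 0 else 1) = 10 by decide] at h2
  rw [show ∑ e, petW e * (if e.val < 10 then 1 else 0) = 10 by decide] at h3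
  have h4 : ∑ C, (a C : ℤ) * (∑ e ∈ C, (if e.val < 10 then 1 else 0) -
      ∑ e ∈ C, (if e.val < 10 then 0 else 1)) = 0 := by
    simp only [mul_sub, sum_sub_distrib]
    rw [← h2, ← h3, sub_self]
  replace h4 := (sum_eq_zero_iff_of_nonneg fun C _ => by
    by_cases h : a C = 0
    · simp [h]
    · refine mul_nonneg (Nat.cast_nonneg _) ?_
      rcases pet_circ (ha C h) with h5 | h5
      · omega
      · omega).1 h4
  have h5 : (4 : ℤ) ∣ k * 10 := by
    rw [h2]
    refine dvd_sum fun C _ => ?_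
    by_cases h : a C = 0
    · simp [h]
    · have h6 := (mul_eq_zero.1 (h4 C (mem_univ _))).resolve_left (by exact_mod_cast h)
      rcases pet_circ (ha C h) with h5 | h5
      · omega
      · exact h5.2.mul_left _
  obtain ⟨m, rfl⟩ := hk
  push_cast at h5
  omega

theorem not_good {R : Set ℤ} (k : ℕ) (hk : Odd k) (h1 : (k : ℤ) ∈ R) (h2 : (2 * k : ℤ) ∈ R) :
    ¬ GoodRange R := fun h => by
  refine pet_not k hk ((h _ _ pet _ fun e => ?_).2 ⟨pet_cone k, pet_lat k⟩)
  unfold petW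
  split_ifs
  · rwa [mul_one]
  · rwa [mul_comm]

end Pool.Agent.P.MP_20b97f_co
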